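import Mathlib
import Pool.Agent.R272.Chord.Defs
import Pool.Agent.R272.Chord.Main

set_option autoImplicit false

namespace Pool.Agent.Results.MP_174dab_an.ChordSet

open Pool.Agent.R272.Chord

/-- Proof of Q1: for every `n ≥ 1`, the chord set of `g_n(x) = ∑_{k=1}^n sin (2πkx)` is
`[0,1] ∖ V_n`, and the set of nonnegative lengths of non-chords is `V_n ∪ (1,∞)`. -/
theorem result (n : ℕ) (hn : 1 ≤ n) :
    H (g n) = Set.Icc 0 1 \ V n ∧ Set.Ici 0 \ H (g n) = V n ∪ Set.Ioi 1 := by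
  refine ⟨main n hn, ?_⟩
  have hn0 : (0 : ℝ) < n := by exact_mod_cast hn
  have hV : ∀ l ∈ V n, 0 ≤ l ∧ l ≤ 1 := by
    rintro l ⟨k, _, hkn, h1, h2⟩
    have hkn' : (k : ℝ) ≤ n := by exact_mod_cast hkn
    refine ⟨le_of_lt (lt_of_le_of_lt (by positivity) h1), h2.le.trans ?_⟩
    rw [div_le_one hn0]; exact hkn'
  rw [main n hn]
  ext l
  simp only [Set.mem_diff, Set.mem_Ici, Set.mem_Icc, Set.mem_union, Set.mem_Ioi, not_and, not_not]
  constructor
  · rintro ⟨h0, h⟩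
    rcases le_or_gt l 1 with h1 | h1
    · exact Or.inl (h ⟨h0, h1⟩)
    · exact Or.inr h1
  · rintro (h | h)
    · exact ⟨(hV l h).1, fun _ => h⟩
    · exact ⟨by linarith, fun h2 => absurd h2.2 (not_le.mpr h)⟩

end Pool.Agent.Results.MP_174dab_an.ChordSet
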